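import Pool.Agent.H8.CentProof

set_option autoImplicit false

namespace Pool.Agent.Results.MP_06c496_co.Reach

open Pool.Agent.H8.Cent

/-- Every simple polygon, and more generally every polygon whose vertices are not collinear,
can be carried to a regular polygon by finitely many vertex-centroid moves. -/
theorem result (n : ℕ) (v : Fin (n + 3) → ℂ) (h : IsSimple v ∨ ¬ Collinear ℝ (Set.range v)) :
    ∃ w, Relation.ReflTransGen Move v w ∧ IsRegPoly w :=
  main v h

end Pool.Agent.Results.MP_06c496_co.Reach
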